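import Pool.Agent.N912.EL.Stm2
import Pool.Agent.W748.EG.Corr

/-!
Project EL (helper912), part 15: the labels of the factorisations, and conjugation.
-/

set_option autoImplicit false

namespace Pool.Agent.N265.EL

open Finset Filter
open Pool.Agent.W78.GA
open Pool.Agent.W78.EG
open Pool.Agent.W251.GX (Cm)
open Pool.Agent.N912.EL

variable {t c : ℤ} {f : ℕ} {χ : DirichletCharacter ℂ f}

/-- UNQ -/
theorem unq (hF : Fd t c f χ) : S_UNQ t c := by
  intro v w v' w' h1 h1' h2 h2' hv hw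
  have hD := Pool.Agent.W748.EG.hD_of hF
  have hv0 : v ≠ 0 := by
    rintro rfl
    simp [dt] at h1
  have e1 := ip_dt hD v w
  have e2 := ip_dt hD v' w'
  rw [h1] at e1
  rw [h1'] at e2
  unfold pp at h2 h2'
  rw [h1, mul_one] at h2
  rw [h1', mul_one] at h2'
  have hip : ip v' w' = ip v w := by
    have h5 : (ip v w) ^ 2 + t * ip v w * 1 + c * 1 ^ 2 =
        (ip v' w') ^ 2 + t * ip v' w' * 1 + c * 1 ^ 2 := by
      rw [← e1, ← e2, hv, hw]
    have hfac : (ip v w - ip v' w') * (ip v w + ip v' w' + t) = 0 := by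
      linear_combination h5
    rcases mul_eq_zero.1 hfac with h9 | h9
    · linarith
    · exfalso; linarith
  obtain ⟨u, hu, hu1, hu2⟩ := Pool.Agent.W748.EG.unique_pair hD hv0 hv.symm h1 h1' hip
  exact ⟨u, (Pool.Agent.W748.EG.mem_unit hD).1 hu, hu1, hu2⟩

/-- LAB -/
theorem lab (h : S_UNQ t c) : S_LAB t c := by
  classical
  intro A _ H₁ H₂ a₁ a₂
  refine ⟨fun q => if hq : ∃ v w : Qd t c, dt v w = 1 ∧ 0 < pp v w ∧ nm v = q.1 ∧ nm w = q.2 then
    H₁ hq.choose + H₂ hq.choose_spec.choose else 0, ?_⟩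
  intro v w h1 h2
  have hq : ∃ v' w' : Qd t c, dt v' w' = 1 ∧ 0 < pp v' w' ∧ nm v' = (nm v, nm w).1 ∧
    nm w' = (nm v, nm w).2 := ⟨v, w, h1, h2, rfl, rfl⟩
  dsimp only
  rw [dif_pos hq]
  obtain ⟨b1, b2, b3, b4⟩ := hq.choose_spec.choose_spec
  obtain ⟨u, hu, hu1, hu2⟩ := h v w hq.choose hq.choose_spec.choose h1 b1 h2 b2 b3.symm b4.symm
  have hv0 : v ≠ 0 := by
    rintro rfl
    simp [dt] at h1
  have hw0 : w ≠ 0 := by
    rintro rfl
    simp [dt] at h1
  have hu0 : u ≠ 0 := by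
    rintro rfl
    simp at hu
  have q1 : H₁ hq.choose = H₁ v := by
    rw [congrArg H₁ hu1, a₁.mul u v hu0 hv0, a₁.unit u hu, zero_add]
  have q2 : H₂ hq.choose_spec.choose = H₂ w := by
    rw [congrArg H₂ hu2, a₂.mul u w hu0 hw0, a₂.unit u hu, zero_add]
  exact congrArg₂ (· + ·) q1 q2

/-- STAR -/
theorem star_apd (hD : t ^ 2 < 4 * c) : S_STAR t c := by
  classical
  intro N F hF
  have hs0 : ∀ z : Qd t c, z ≠ 0 → star z ≠ 0 := by
    intro z hz h
    apply hz
    rw [← star_star z, h, star_zero]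
  refine ⟨⟨hF.cm.pos, ?_, ?_⟩, ?_⟩
  · intro z w hz hw
    show F (star (z * w)) = F (star z) * F (star w)
    rw [star_mul', hF.cm.mul _ _ (hs0 z hz) (hs0 w hw)]
  · intro z
    exact hF.cm.pow (star z)
  · intro M r₁ r₂ hM ε hε
    obtain ⟨X₀, hX₀⟩ := hF.mean M (r₁ + t * r₂) (-r₂) hM ε hε
    refine ⟨X₀, fun X hX => ?_⟩
    have h1 := hX₀ X hX
    convert h1 using 2
    refine Finset.sum_bij' (fun z _ => star z) (fun z _ => star z) ?_ ?_ ?_ ?_ ?_
    · intro z hz
      rw [Finset.mem_filter, mem_ball hD] at hz ⊢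
      obtain ⟨⟨p1, p2⟩, p3, p4⟩ := hz
      refine ⟨⟨by rw [nm_star]; exact p1, by rw [nm_star]; exact p2⟩, ?_, ?_⟩
      · rw [QuadraticAlgebra.re_star]
        have : z.re + t * z.im - (r₁ + t * r₂) = (z.re - r₁) + t * (z.im - r₂) := by ring
        rw [this]
        exact dvd_add p3 (p4.mul_left t)
      · rw [QuadraticAlgebra.im_star]
        have : -z.im - -r₂ = -(z.im - r₂) := by ring
        rw [this]
        exact (dvd_neg).2 p4
    · intro z hz
      rw [Finset.mem_filter, mem_ball hD] at hz ⊢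
      obtain ⟨⟨p1, p2⟩, p3, p4⟩ := hz
      refine ⟨⟨by rw [nm_star]; exact p1, by rw [nm_star]; exact p2⟩, ?_, ?_⟩
      · rw [QuadraticAlgebra.re_star]
        have : z.re + t * z.im - r₁ = (z.re - (r₁ + t * r₂)) + t * (z.im - -r₂) := by ring
        rw [this]
        exact dvd_add p3 (p4.mul_left t)
      · rw [QuadraticAlgebra.im_star]
        have : -z.im - r₂ = -(z.im - -r₂) := by ring
        rw [this]
        exact (dvd_neg).2 p4
    · intro z _
      exact star_star z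
    · intro z _
      exact star_star z
    · intro z _
      rfl

end Pool.Agent.N265.EL
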