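import Pool.Agent.N502.FR.Stm

/-!
# Project FR, part RAC (helper265): the integral formula defines a race function
-/

set_option autoImplicit false

open Finset MeasureTheory

namespace Pool.Agent.N265.FR

open Pool.Agent.N502.FR

theorem kf_anti (A B : Finset ℕ) (t : ℝ) : kf A B t = -kf B A t := by
  unfold kf
  have h : Real.sin (th A t - th B t) = -Real.sin (th B t - th A t) := by
    rw [← Real.sin_neg, neg_sub]
  rw [h]
  ring

theorem main : S_RAC := by
  intro hint hstp hbas
  have hpi : Real.pi ≠ 0 := Real.pi_ne_zero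
  refine ⟨⟨?_, ?_, ?_⟩, ?_⟩
  · intro A B a b hA hB ha hb
    have hA' : Pos (A.erase a) := fun c hc => hA c (Finset.mem_of_mem_erase hc)
    have hB' : Pos (B.erase b) := fun c hc => hB c (Finset.mem_of_mem_erase hc)
    have i1 : IntegrableOn (kf (A.erase a) B) (Set.Ioi 0) :=
      hint _ _ hA' hB ⟨b, Finset.mem_union_right _ hb⟩
    have i2 : IntegrableOn (kf A (B.erase b)) (Set.Ioi 0) :=
      hint _ _ hA hB' ⟨a, Finset.mem_union_left _ ha⟩
    have key : ((a : ℝ) + b) * ∫ t in Set.Ioi (0 : ℝ), kf A B t =
        a * (∫ t in Set.Ioi (0 : ℝ), kf (A.erase a) B t) +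
          b * ∫ t in Set.Ioi (0 : ℝ), kf A (B.erase b) t := by
      rw [← integral_const_mul, ← integral_const_mul, ← integral_const_mul,
        ← integral_add (i1.const_mul _) (i2.const_mul _)]
      exact setIntegral_congr_fun measurableSet_Ioi fun t ht => hstp A B a b t hA hB ha hb ht
    unfold KK
    linear_combination (-(1 / Real.pi)) * key
  · intro A hA hne
    unfold KK
    rw [hbas hint A hA hne]
    field_simp
    ring
  · intro B hB hne
    unfold KK
    have h : ∫ t in Set.Ioi (0 : ℝ), kf ∅ B t = -(Real.pi / 2) := by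
      rw [← hbas hint B hB hne, ← integral_neg]
      exact setIntegral_congr_fun measurableSet_Ioi fun t _ => kf_anti ∅ B t
    rw [h]
    field_simp
    ring
  · intro A
    unfold KK
    have h : ∫ t in Set.Ioi (0 : ℝ), kf A A t = 0 := by
      have h1 : ∀ t, kf A A t = 0 := fun t => by
        unfold kf
        rw [sub_self, Real.sin_zero, mul_zero, zero_div]
      simp only [h1, integral_zero]
    rw [h, mul_zero, sub_zero]

end Pool.Agent.N265.FR
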