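import Mathlib
import Pool.Agent.N604.MW.Stm6
import Pool.Agent.N604.MW.DMeas
import Pool.Agent.N559.KV_L2

/-!
# Project KW (helper604), piece DL2 (helper265): the second moment of one exponential sum
-/

set_option autoImplicit false

namespace Pool.Agent.N265.KW

open Finset MeasureTheory Filter Topology
open Pool.Agent.N604.MW
open Pool.Agent.N559.KV (e_add pow_diff_abs sum_y qq_sum)
open scoped ENNReal

/-- the exponential sum without integer parts -/
noncomputable def SD (k X : ℕ) (a : ℝ) (g : ℝ) : ℂ :=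
  ∑ x ∈ Finset.Icc X (2 * X), (lam x : ℂ) * e (g * (a * (x : ℝ) ^ k))

theorem SD_cont (k X : ℕ) (g : ℝ) : Continuous fun a => SD k X a g := by
  unfold SD
  refine continuous_finsetSum _ fun x _ => continuous_const.mul (e_continuous.comp ?_)
  fun_prop

/-- the characteristic function of the standard Gaussian measure -/
theorem char1 (t : ℝ) : ∫ a, e (a * t) ∂G1 = ((Real.exp (-(2 * Real.pi ^ 2 * t ^ 2)) : ℝ) : ℂ) := by
  have h1 := ProbabilityTheory.charFun_gaussianReal (μ := 0) (v := 1) (2 * Real.pi * t)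
  rw [charFun_apply_real] at h1
  have h2 : (fun a : ℝ => e (a * t)) = fun a : ℝ => Complex.exp ((2 * Real.pi * t : ℝ) * a * Complex.I) := by
    funext a
    unfold e
    congr 1
    push_cast
    ring
  unfold G1
  rw [h2, h1]
  rw [Complex.ofReal_exp]
  congr 1
  push_cast
  ring

/-- the square of the absolute value as a double sum -/
theorem SD_sq (k X : ℕ) (a : ℝ) (g : ℝ) :
    ((‖SD k X a g‖ ^ 2 : ℝ) : ℂ) = ∑ x ∈ Finset.Icc X (2 * X), ∑ y ∈ Finset.Icc X (2 * X),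
      (lam x : ℂ) * lam y * e (a * (g * ((x : ℝ) ^ k - (y : ℝ) ^ k))) := by
  have h1 : ((‖SD k X a g‖ ^ 2 : ℝ) : ℂ) = SD k X a g * (starRingEnd ℂ) (SD k X a g) := by
    rw [Complex.mul_conj, Complex.normSq_eq_norm_sq]
  rw [h1]
  unfold SD
  rw [map_sum, Finset.sum_mul_sum]
  refine Finset.sum_congr rfl fun x _ => Finset.sum_congr rfl fun y _ => ?_
  rw [map_mul, Complex.conj_ofReal, ← e_neg]
  have h2 : e (g * (a * (x : ℝ) ^ k)) * e (-(g * (a * (y : ℝ) ^ k))) =
      e (a * (g * ((x : ℝ) ^ k - (y : ℝ) ^ k))) := by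
    rw [← e_add]
    congr 1
    ring
  calc (lam x : ℂ) * e (g * (a * (x : ℝ) ^ k)) * ((lam y : ℂ) * e (-(g * (a * (y : ℝ) ^ k))))
      = (lam x : ℂ) * lam y * (e (g * (a * (x : ℝ) ^ k)) * e (-(g * (a * (y : ℝ) ^ k)))) := by ring
    _ = _ := by rw [h2]

/-- the second moment of the sum without integer parts -/
theorem SD_moment {k X : ℕ} (hk : 1 ≤ k) (hX : 1 ≤ X) {g β : ℝ}
    (hβ : 0 < |β|) (hg : |β| ≤ |g|) :
    ∫⁻ a, ENNReal.ofReal (‖SD k X a g‖ ^ 2) ∂G1 ≤
      ENNReal.ofReal (8 * Real.log (2 * X) ^ 2 * X * (1 + 1 / (|β| * (X : ℝ) ^ (k - 1)))) := by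
  have hX1 : (1 : ℝ) ≤ X := by exact_mod_cast hX
  have hlog : 0 ≤ Real.log (2 * X) := Real.log_nonneg (by linarith)
  have hcont := SD_cont k X g
  have hbd : ∀ a, ‖(‖SD k X a g‖ ^ 2 : ℝ)‖ ≤ (∑ x ∈ Finset.Icc X (2 * X), lam x) ^ 2 := by
    intro a
    rw [Real.norm_of_nonneg (by positivity)]
    refine pow_le_pow_left₀ (norm_nonneg _) ?_ 2
    unfold SD
    refine (norm_sum_le _ _).trans (Finset.sum_le_sum fun x _ => ?_)
    rw [norm_mul, e_norm, mul_one, Complex.norm_real, Real.norm_of_nonneg (klam_nonneg x)]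
  have hint : Integrable (fun a => ‖SD k X a g‖ ^ 2) G1 :=
    Integrable.of_bound (hcont.norm.pow 2).aestronglyMeasurable _ (Eventually.of_forall hbd)
  rw [← ofReal_integral_eq_lintegral_ofReal hint (Eventually.of_forall fun a => by positivity)]
  apply ENNReal.ofReal_le_ofReal
  set A : ℝ := |β| * (X : ℝ) ^ (k - 1) with hA
  have hA0 : 0 < A := by positivity
  -- the integral as a double sum
  have e1 : ((∫ a, ‖SD k X a g‖ ^ 2 ∂G1 : ℝ) : ℂ) =
      ∑ x ∈ Finset.Icc X (2 * X), ∑ y ∈ Finset.Icc X (2 * X),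
      (lam x : ℂ) * lam y * ((Real.exp (-(2 * Real.pi ^ 2 *
        (g * ((x : ℝ) ^ k - (y : ℝ) ^ k)) ^ 2)) : ℝ) : ℂ) := by
    rw [← integral_complex_ofReal]
    have e2 : ∀ x y : ℕ, Integrable (fun a : ℝ => (lam x : ℂ) * lam y *
        e (a * (g * ((x : ℝ) ^ k - (y : ℝ) ^ k)))) G1 := by
      intro x y
      refine Integrable.const_mul ?_ _
      refine Integrable.of_bound (e_continuous.comp (by fun_prop)).aestronglyMeasurable 1
        (Eventually.of_forall fun a => (e_norm _).le)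
    simp only [SD_sq]
    rw [integral_finsetSum _ fun x _ => integrable_finsetSum _ fun y _ => e2 x y]
    refine Finset.sum_congr rfl fun x _ => ?_
    rw [integral_finsetSum _ fun y _ => e2 x y]
    refine Finset.sum_congr rfl fun y _ => ?_
    rw [integral_const_mul, char1]
  have h3 : ∫ a, ‖SD k X a g‖ ^ 2 ∂G1 ≤ ‖((∫ a, ‖SD k X a g‖ ^ 2 ∂G1 : ℝ) : ℂ)‖ := by
    rw [Complex.norm_real]
    exact le_abs_self _
  refine h3.trans ?_
  rw [e1]
  refine (norm_sum_le _ _).trans ?_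
  have h4 : ∀ x ∈ Finset.Icc X (2 * X), ∀ y ∈ Finset.Icc X (2 * X),
      ‖(lam x : ℂ) * lam y * ((Real.exp (-(2 * Real.pi ^ 2 *
        (g * ((x : ℝ) ^ k - (y : ℝ) ^ k)) ^ 2)) : ℝ) : ℂ)‖ ≤
      Real.log (2 * X) ^ 2 * (1 / (1 + (A * |(x : ℝ) - y|) ^ 2)) := by
    intro x hx y hy
    rw [Finset.mem_Icc] at hx hy
    rw [norm_mul, norm_mul, Complex.norm_real, Complex.norm_real,
      Complex.norm_real, Real.norm_of_nonneg (klam_nonneg x), Real.norm_of_nonneg (klam_nonneg y),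
      Real.norm_of_nonneg (Real.exp_pos _).le]
    have h5 : lam x * lam y ≤ Real.log (2 * X) ^ 2 := by
      rw [sq]
      exact mul_le_mul (lam_le X x hX hx.2) (lam_le X y hX hy.2) (klam_nonneg y) hlog
    refine mul_le_mul h5 ?_ (Real.exp_pos _).le (by positivity)
    have h9 : (A * |(x : ℝ) - y|) ^ 2 ≤ (g * ((x : ℝ) ^ k - (y : ℝ) ^ k)) ^ 2 := by
      rw [← sq_abs (g * _), abs_mul]
      refine pow_le_pow_left₀ (by positivity) ?_ 2
      rw [hA, mul_assoc]
      exact mul_le_mul hg (pow_diff_abs hk hx.1 hy.1) (by positivity) (abs_nonneg _)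
    have hpi : 1 ≤ 2 * Real.pi ^ 2 := by nlinarith [Real.pi_gt_three]
    rw [Real.exp_neg, ← one_div]
    apply one_div_le_one_div_of_le (by positivity)
    have h10 := Real.add_one_le_exp (2 * Real.pi ^ 2 * (g * ((x : ℝ) ^ k - (y : ℝ) ^ k)) ^ 2)
    have h11 : (A * |(x : ℝ) - y|) ^ 2 ≤ 2 * Real.pi ^ 2 * (g * ((x : ℝ) ^ k - (y : ℝ) ^ k)) ^ 2 := by
      have h13 : (0 : ℝ) ≤ (A * |(x : ℝ) - y|) ^ 2 := sq_nonneg _
      nlinarith
    linarith
  have h14 : ∑ x ∈ Finset.Icc X (2 * X), ‖∑ y ∈ Finset.Icc X (2 * X),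
      (lam x : ℂ) * lam y * ((Real.exp (-(2 * Real.pi ^ 2 *
        (g * ((x : ℝ) ^ k - (y : ℝ) ^ k)) ^ 2)) : ℝ) : ℂ)‖ ≤
      ∑ x ∈ Finset.Icc X (2 * X), Real.log (2 * X) ^ 2 * (2 * (1 + 2 / A)) := by
    refine Finset.sum_le_sum fun x hx => (norm_sum_le _ _).trans ?_
    refine (Finset.sum_le_sum fun y hy => h4 x hx y hy).trans ?_
    rw [← Finset.mul_sum]
    exact mul_le_mul_of_nonneg_left (sum_y hA0 hx) (by positivity)
  refine h14.trans ?_
  rw [Finset.sum_const, Nat.card_Icc, nsmul_eq_mul]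
  have h15 : ((2 * X + 1 - X : ℕ) : ℝ) ≤ 2 * X := by
    have : 2 * X + 1 - X ≤ 2 * X := by omega
    exact_mod_cast this
  have h16 : 2 * (1 + 2 / A) ≤ 4 * (1 + 1 / A) := by
    have : 2 / A = 2 * (1 / A) := by ring
    rw [this]
    linarith
  calc ((2 * X + 1 - X : ℕ) : ℝ) * (Real.log (2 * X) ^ 2 * (2 * (1 + 2 / A)))
      ≤ (2 * X) * (Real.log (2 * X) ^ 2 * (4 * (1 + 1 / A))) := by
        refine mul_le_mul h15 (mul_le_mul_of_nonneg_left h16 (by positivity)) (by positivity)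
          (by positivity)
    _ = _ := by ring

theorem dl2 (_h1 : S_CHAR) (h2 : S_FLOOR) : S_DL2 := by
  intro k hk
  obtain ⟨cc, c1, c2, c3⟩ := h2
  refine ⟨800, by norm_num, ?_⟩
  intro X β hX hβ hβ2
  have hX1 : (1 : ℝ) ≤ X := by exact_mod_cast (by omega : 1 ≤ X)
  have hq : ∀ t, ‖cc t‖ ≤ qq t := by
    intro t
    unfold qq
    split_ifs with h
    · exact c1 t
    · have := c2 t (not_le.1 h).le
      rwa [sq_abs] at this
  set M : ℝ≥0∞ := ENNReal.ofReal (8 * Real.log (2 * X) ^ 2 * X *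
    (1 + 1 / (|β| * (X : ℝ) ^ (k - 1)))) with hM
  -- the Fourier expansion
  have hsum : ∀ a, HasSum (fun h : ℤ => cc (β + h) * SD k X a (β + h)) (TD k X a β) := by
    intro a
    have h3 : HasSum (fun h : ℤ => ∑ x ∈ Finset.Icc X (2 * X),
        (lam x : ℂ) * (cc (β + h) * e ((β + h) * (a * (x : ℝ) ^ k)))) (TD k X a β) := by
      have h4 : TD k X a β = ∑ x ∈ Finset.Icc X (2 * X), (lam x : ℂ) *
          (((Real.sin (Real.pi * (a * (x : ℝ) ^ k)) ^ 2 : ℝ) : ℂ) * e (β * (⌊a * (x : ℝ) ^ k⌋ : ℤ))) := by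
        unfold TD
        refine Finset.sum_congr rfl fun x _ => ?_
        rw [Complex.ofReal_mul, mul_assoc]
      rw [h4]
      exact hasSum_sum fun x _ => (c3 β (a * (x : ℝ) ^ k)).mul_left _
    have e5 : (fun h : ℤ => cc (β + h) * SD k X a (β + h)) = fun h : ℤ =>
        ∑ x ∈ Finset.Icc X (2 * X), (lam x : ℂ) * (cc (β + h) * e ((β + h) * (a * (x : ℝ) ^ k))) := by
      funext h
      unfold SD
      rw [Finset.mul_sum]
      exact Finset.sum_congr rfl fun x _ => by ring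
    rw [e5]
    exact h3
  -- the pointwise bound
  have hpt : ∀ a, ENNReal.ofReal (‖TD k X a β‖ ^ 2) ≤
      10 * ∑' h : ℤ, ENNReal.ofReal (qq (β + h)) * ENNReal.ofReal (‖SD k X a (β + h)‖ ^ 2) := by
    intro a
    have hcont : Continuous fun z : ℂ => ENNReal.ofReal (‖z‖ ^ 2) :=
      ENNReal.continuous_ofReal.comp (by fun_prop)
    refine le_of_tendsto ((hcont.tendsto _).comp (hsum a)) (Eventually.of_forall fun s => ?_)
    simp only [Function.comp_apply]
    have h5 : ‖∑ h ∈ s, cc (β + h) * SD k X a (β + h)‖ ^ 2 ≤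
        10 * ∑ h ∈ s, qq (β + h) * ‖SD k X a (β + h)‖ ^ 2 := by
      have h6 : ‖∑ h ∈ s, cc (β + h) * SD k X a (β + h)‖ ≤
          ∑ h ∈ s, qq (β + h) * ‖SD k X a (β + h)‖ := by
        refine (norm_sum_le _ _).trans (Finset.sum_le_sum fun h _ => ?_)
        rw [norm_mul]
        exact mul_le_mul_of_nonneg_right (hq _) (norm_nonneg _)
      have h7 := Finset.sum_sq_le_sum_mul_sum_of_sq_le_mul s
        (r := fun h : ℤ => qq (β + h) * ‖SD k X a (β + h)‖) (f := fun h : ℤ => qq (β + h))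
        (g := fun h : ℤ => qq (β + h) * ‖SD k X a (β + h)‖ ^ 2)
        (fun h _ => qq_nonneg _) (fun h _ => mul_nonneg (qq_nonneg _) (by positivity))
        (fun h _ => le_of_eq (by ring))
      have h8 : 0 ≤ ∑ h ∈ s, qq (β + h) * ‖SD k X a (β + h)‖ ^ 2 :=
        Finset.sum_nonneg fun h _ => mul_nonneg (qq_nonneg _) (by positivity)
      exact (pow_le_pow_left₀ (norm_nonneg _) h6 2).trans (h7.trans
        (mul_le_mul_of_nonneg_right (qq_sum hβ2 s) h8))
    refine (ENNReal.ofReal_le_ofReal h5).trans ?_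
    rw [ENNReal.ofReal_mul (by norm_num), ENNReal.ofReal_sum_of_nonneg
      (fun h _ => mul_nonneg (qq_nonneg _) (by positivity))]
    have h9 : ENNReal.ofReal 10 = 10 := by norm_num
    rw [h9]
    refine mul_le_mul' le_rfl ?_
    have h10 : ∀ h : ℤ, ENNReal.ofReal (qq (β + h) * ‖SD k X a (β + h)‖ ^ 2) =
        ENNReal.ofReal (qq (β + h)) * ENNReal.ofReal (‖SD k X a (β + h)‖ ^ 2) := fun h =>
      ENNReal.ofReal_mul (qq_nonneg _)
    simp only [h10]
    exact ENNReal.sum_le_tsum s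
  -- the frequencies
  have hfreq : ∀ h : ℤ, |β| ≤ |β + h| := by
    intro h
    rcases eq_or_ne h 0 with rfl | h0
    · simp
    · have h11 : (1 : ℝ) ≤ |(h : ℝ)| := by exact_mod_cast Int.one_le_abs h0
      have h12 := abs_sub_abs_le_abs_sub (h : ℝ) (-β)
      rw [abs_neg, sub_neg_eq_add, add_comm (h : ℝ) β] at h12
      linarith
  have hmeas : ∀ h : ℤ, Measurable fun a => ENNReal.ofReal (‖SD k X a (β + h)‖ ^ 2) := fun h =>
    ((SD_cont k X (β + h)).norm.measurable.pow_const 2).ennreal_ofReal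
  have hqs : ∑' h : ℤ, ENNReal.ofReal (qq (β + h)) ≤ 10 := by
    rw [ENNReal.tsum_eq_iSup_sum]
    refine iSup_le fun s => ?_
    rw [← ENNReal.ofReal_sum_of_nonneg fun h _ => qq_nonneg _]
    have h9 : ENNReal.ofReal 10 = 10 := by norm_num
    rw [← h9]
    exact ENNReal.ofReal_le_ofReal (qq_sum hβ2 s)
  calc ∫⁻ a, ENNReal.ofReal (‖TD k X a β‖ ^ 2) ∂G1
      ≤ ∫⁻ a, 10 * ∑' h : ℤ, ENNReal.ofReal (qq (β + h)) *
          ENNReal.ofReal (‖SD k X a (β + h)‖ ^ 2) ∂G1 := lintegral_mono hpt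
    _ = 10 * ∑' h : ℤ, ENNReal.ofReal (qq (β + h)) *
          ∫⁻ a, ENNReal.ofReal (‖SD k X a (β + h)‖ ^ 2) ∂G1 := by
        rw [lintegral_const_mul' _ _ (by norm_num), lintegral_tsum fun h =>
          ((hmeas h).const_mul _).aemeasurable]
        congr 1
        refine tsum_congr fun h => ?_
        rw [lintegral_const_mul _ (hmeas h)]
    _ ≤ 10 * ∑' h : ℤ, ENNReal.ofReal (qq (β + h)) * M := by
        refine mul_le_mul' le_rfl (ENNReal.tsum_le_tsum fun h => mul_le_mul' le_rfl ?_)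
        exact SD_moment hk (by omega) hβ (hfreq h)
    _ ≤ 10 * (10 * M) := by
        rw [ENNReal.tsum_mul_right]
        exact mul_le_mul' le_rfl (mul_le_mul' hqs le_rfl)
    _ = ENNReal.ofReal (800 * Real.log (2 * X) ^ 2 * X *
          (1 + 1 / (|β| * (X : ℝ) ^ (k - 1)))) := by
        have h9 : (10 : ℝ≥0∞) = ENNReal.ofReal 10 := by norm_num
        rw [hM, h9, ← ENNReal.ofReal_mul (by norm_num), ← ENNReal.ofReal_mul (by norm_num)]
        congr 1
        ring

end Pool.Agent.N265.KW
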