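import Pool.Agent.N906.SS.Stm
import Pool.Agent.N906.FH.Fin

/-!
# Project SS (helper906), part FINS: the limit for semistable curves

Written by helper265.
-/

set_option autoImplicit false

namespace Pool.Agent.N265.SS

open Finset Filter Topology Pool.Agent.N906.SZ Pool.Agent.N906.FH Pool.Agent.N906.SS

/-- absorbing constants -/
theorem absorb {β e ε : ℝ} (hβ : 0 < β) (hε : 0 < ε) : ∀ᶠ X : ℝ in atTop,
    2 * Real.exp (e * Real.log (6 * X) +
      (1 + ε / 2) * √(β * Real.log (6 * X) / Real.log (Real.log (6 * X)))) ≤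
    Real.exp (e * Real.log X + (1 + ε) * √(β * Real.log X / Real.log (Real.log X))) := by
  have h1 : Tendsto (fun b : ℝ => (Real.log 2 + e * Real.log 6) / √(b / Real.log b) +
      (1 + ε / 2) * (√(24 * (β / 24) * (1 * b - -Real.log 6) / Real.log (1 * b - -Real.log 6)) /
        √(b / Real.log b))) atTop (𝓝 (0 + (1 + ε / 2) * √(24 * (β / 24) * 1))) :=
    (Pool.Agent.N906.RS.small _).add ((Pool.Agent.N906.RS.ratio _ one_pos).const_mul _)
  have e0 : 24 * (β / 24) = β := by ring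
  rw [zero_add, mul_one, e0] at h1
  have hs : 0 < √β := Real.sqrt_pos.2 hβ
  have h2 := h1.eventually_lt_const (show (1 + ε / 2) * √β < (1 + ε) * √β by nlinarith)
  have h3 := Real.tendsto_log_atTop.eventually h2
  filter_upwards [h3, eventually_gt_atTop (0 : ℝ),
    Real.tendsto_log_atTop.eventually_gt_atTop 1] with X hX hX0 hX1
  have hll : 0 < Real.log (Real.log X) := Real.log_pos hX1
  have hG0 : 0 < √(Real.log X / Real.log (Real.log X)) :=
    Real.sqrt_pos.2 (div_pos (by linarith) hll)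
  have e1 : Real.log (6 * X) = 1 * Real.log X - -Real.log 6 := by
    rw [Real.log_mul (by norm_num) hX0.ne']
    ring
  rw [← e1, ← mul_div_assoc, ← add_div, div_lt_iff₀ hG0] at hX
  have e2 : √(β * Real.log X / Real.log (Real.log X)) =
      √β * √(Real.log X / Real.log (Real.log X)) := by
    rw [mul_div_assoc, Real.sqrt_mul hβ.le]
  rw [e2]
  have e4 : Real.log (6 * X) = Real.log 6 + Real.log X := by
    rw [Real.log_mul (by norm_num) hX0.ne']
  calc 2 * Real.exp (e * Real.log (6 * X) +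
      (1 + ε / 2) * √(β * Real.log (6 * X) / Real.log (Real.log (6 * X)))) =
      Real.exp (Real.log 2 + (e * Real.log (6 * X) +
      (1 + ε / 2) * √(β * Real.log (6 * X) / Real.log (Real.log (6 * X))))) := by
        rw [Real.exp_add (Real.log 2), Real.exp_log two_pos]
    _ ≤ _ := by
        apply Real.exp_le_exp.2
        have e5 : e * Real.log (6 * X) = e * Real.log 6 + e * Real.log X := by rw [e4]; ring
        rw [e5]
        linarith

theorem prime_five {p : ℕ} (hp : p.Prime) (h5 : 5 ≤ p) : Prime (p : ℤ) ∧ ¬ (p : ℤ) ∣ 2 ∧ ¬ (p : ℤ) ∣ 3 := by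
  refine ⟨Nat.prime_iff_prime_int.1 hp, ?_, ?_⟩
  · intro h
    have := Int.le_of_dvd (by norm_num) h
    omega
  · intro h
    have := Int.le_of_dvd (by norm_num) h
    omega

theorem dvd_smooth {p : ℤ} (hp : Prime p) (h2 : ¬ p ∣ 2) (h3 : ¬ p ∣ 3) {i j : ℕ} {x : ℤ}
    (h : p ∣ 2 ^ i * 3 ^ j * x) : p ∣ x := by
  rcases hp.dvd_or_dvd h with h | h
  · rcases hp.dvd_or_dvd h with h | h
    · exact absurd (hp.dvd_of_dvd_pow h) h2
    · exact absurd (hp.dvd_of_dvd_pow h) h3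
  · exact h

section curve

variable {W : WeierstrassCurve ℤ} {a b u : ℤ}

theorem rel (ha : a * u ^ 4 = 27 * W.c₄) (hb : b * u ^ 6 = 54 * W.c₆) :
    Dd a b * u ^ 12 = 2 ^ 8 * 3 ^ 12 * W.Δ := by
  have h := W.c_relation
  have e : Dd a b * u ^ 12 = 4 * (a * u ^ 4) ^ 3 - 27 * (b * u ^ 6) ^ 2 := by
    unfold Dd; ring
  rw [e, ha, hb]
  linear_combination (-78732 : ℤ) * h

theorem five_dvd (hu : u = 1 ∨ u = 3) (ha : a * u ^ 4 = 27 * W.c₄) (hb : b * u ^ 6 = 54 * W.c₆)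
    {p : ℕ} (hp : p.Prime) (h5 : 5 ≤ p) : (p : ℤ) ∣ Dd a b ↔ (p : ℤ) ∣ W.Δ := by
  obtain ⟨h1, h2, h3⟩ := prime_five hp h5
  have hr := rel ha hb
  constructor
  · intro h
    refine dvd_smooth h1 h2 h3 (i := 8) (j := 12) ?_
    rw [← hr]
    exact h.mul_right _
  · intro h
    have h4 : (p : ℤ) ∣ Dd a b * u ^ 12 := by
      rw [hr]
      exact h.mul_left _
    refine (h1.dvd_or_dvd h4).resolve_right fun h6 => ?_
    have h7 := h1.dvd_of_dvd_pow h6
    rcases hu with rfl | rfl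
    · exact h1.not_isUnit (isUnit_of_dvd_one h7)
    · exact h3 h7

theorem five_dvd_a (hco : IsCoprime W.c₄ W.Δ) (ha : a * u ^ 4 = 27 * W.c₄)
    {p : ℕ} (hp : p.Prime) (h5 : 5 ≤ p) (hD : (p : ℤ) ∣ W.Δ) : ¬ (p : ℤ) ∣ a := by
  obtain ⟨h1, h2, h3⟩ := prime_five hp h5
  intro h
  have h4 : (p : ℤ) ∣ 2 ^ 0 * 3 ^ 3 * W.c₄ := by
    have e : (2 : ℤ) ^ 0 * 3 ^ 3 * W.c₄ = a * u ^ 4 := by rw [ha]; norm_num
    rw [e]
    exact h.mul_right _
  have h6 := dvd_smooth h1 h2 h3 h4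
  exact h1.not_isUnit (hco.isUnit_of_dvd' h6 hD)

theorem mn (h0 : W.Δ ≠ 0) (hco : IsCoprime W.c₄ W.Δ) (hu : u = 1 ∨ u = 3)
    (ha : a * u ^ 4 = 27 * W.c₄) (hb : b * u ^ 6 = 54 * W.c₆)
    (h31 : u = 1 → ¬ ((3 : ℤ) ∣ W.c₄ ∧ (27 : ℤ) ∣ W.c₆)) : Mn a b := by
  have hr := rel ha hb
  have hc := W.c_relation
  refine ⟨?_, ?_⟩
  · intro h
    rw [h, zero_mul] at hr
    have : W.Δ = 0 := by omega
    exact h0 this
  · rintro p hp ⟨h4, h6⟩
    rcases lt_or_ge p 5 with h5 | h5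
    · have h23 : p = 2 ∨ p = 3 := by
        have := hp.two_le
        interval_cases p
        · exact Or.inl rfl
        · exact Or.inr rfl
        · exact absurd hp (by norm_num)
      rcases h23 with rfl | rfl
      · -- p = 2
        have g4 : (16 : ℤ) ∣ W.c₄ := by
          rcases hu with rfl | rfl
          · norm_num at h4 ha; omega
          · norm_num at h4 ha; omega
        have g6 : (32 : ℤ) ∣ W.c₆ := by
          rcases hu with rfl | rfl
          · norm_num at h6 hb; omega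
          · norm_num at h6 hb; omega
        obtain ⟨x, hx⟩ := g4
        obtain ⟨y, hy⟩ := g6
        have hD : (2 : ℤ) ∣ W.Δ := by
          rw [hx, hy] at hc
          have e : 1728 * W.Δ = 4096 * x ^ 3 - 1024 * y ^ 2 := by rw [hc]; ring
          generalize x ^ 3 = A at e
          generalize y ^ 2 = B at e
          omega
        have h2c : (2 : ℤ) ∣ W.c₄ := by rw [hx]; omega
        have := hco.isUnit_of_dvd' h2c hD
        exact Int.prime_two.not_isUnit this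
      · -- p = 3
        rcases hu with rfl | rfl
        · refine h31 rfl ⟨?_, ?_⟩
          · norm_num at h4 ha; omega
          · norm_num at h6 hb; omega
        · have g4 : (243 : ℤ) ∣ W.c₄ := by norm_num at h4 ha; omega
          have g6 : (19683 : ℤ) ∣ W.c₆ := by norm_num at h6 hb; omega
          obtain ⟨x, hx⟩ := g4
          obtain ⟨y, hy⟩ := g6
          have hD : (3 : ℤ) ∣ W.Δ := by
            rw [hx, hy] at hc
            have e : 1728 * W.Δ = 14348907 * x ^ 3 - 387420489 * y ^ 2 := by rw [hc]; ring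
            generalize x ^ 3 = A at e
            generalize y ^ 2 = B at e
            omega
          have h3c : (3 : ℤ) ∣ W.c₄ := by rw [hx]; omega
          have := hco.isUnit_of_dvd' h3c hD
          exact Int.prime_three.not_isUnit this
    · obtain ⟨h1, h2, h3⟩ := prime_five hp h5
      have ga : (p : ℤ) ∣ a := (dvd_pow_self _ (by norm_num)).trans h4
      have gb : (p : ℤ) ∣ b := (dvd_pow_self _ (by norm_num)).trans h6
      have gD : (p : ℤ) ∣ Dd a b := by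
        unfold Dd
        refine dvd_sub (Dvd.dvd.mul_left (ga.pow (by norm_num)) _) (Dvd.dvd.mul_left (gb.pow (by norm_num)) _)
      exact five_dvd_a hco ha hp h5 ((five_dvd hu ha hb hp h5).1 gD) ga

theorem nc_le (h0 : W.Δ ≠ 0) (hco : IsCoprime W.c₄ W.Δ) (hu : u = 1 ∨ u = 3)
    (ha : a * u ^ 4 = 27 * W.c₄) (hb : b * u ^ 6 = 54 * W.c₆) : Nc a b ≤ rdD W := by
  unfold Nc rdD
  have e : ∏ p ∈ (Dd a b).natAbs.primeFactors.filter (fun p => 5 ≤ p),
      (if (p : ℤ) ∣ a then p ^ 2 else p) =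
      ∏ p ∈ (Dd a b).natAbs.primeFactors.filter (fun p => 5 ≤ p), p := by
    refine Finset.prod_congr rfl fun p hp => ?_
    rw [Finset.mem_filter, Nat.mem_primeFactors] at hp
    obtain ⟨⟨hp, hd, -⟩, h5⟩ := hp
    rw [if_neg]
    exact five_dvd_a hco ha hp h5 ((five_dvd hu ha hb hp h5).1 (Int.natCast_dvd.2 hd))
  rw [e]
  refine Finset.prod_le_prod_of_subset_of_one_le' ?_ ?_
  · intro p hp
    rw [Finset.mem_filter, Nat.mem_primeFactors] at hp
    obtain ⟨⟨hp, hd, -⟩, h5⟩ := hp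
    rw [Nat.mem_primeFactors]
    exact ⟨hp, Int.natCast_dvd.1 ((five_dvd hu ha hb hp h5).1 (Int.natCast_dvd.2 hd)),
      Int.natAbs_ne_zero.2 h0⟩
  · intro p hp _
    exact (Nat.prime_of_mem_primeFactors hp).one_le

theorem cs_of_cn (hco : IsCoprime W.c₄ W.Δ) (hu : u = 1 ∨ u = 3)
    (ha : a * u ^ 4 = 27 * W.c₄) (hb : b * u ^ 6 = 54 * W.c₆) {n : ℕ} (h : Cn n a b) : Cs n a b := by
  intro p hp
  have h1 := h p hp
  have hpp := Nat.prime_of_mem_primeFactors hp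
  have hn : n.factorization p ≠ 0 := by
    rw [Nat.mem_primeFactors] at hp
    exact (hp.1.factorization_pos_of_dvd hp.2.2 hp.2.1).ne'
  refine ⟨fun h5 => ?_, fun h5 => Or.inl ?_⟩
  · unfold fe at h1
    rw [if_pos h5, add_zero] at h1
    exact h1
  · have hD : (p : ℤ) ∣ Dd a b := (dvd_pow_self _ (by omega)).trans h1
    have hna := five_dvd_a hco ha hpp h5 ((five_dvd hu ha hb hpp h5).1 hD)
    refine ⟨hna, ?_⟩
    unfold fe at h1
    rw [if_neg (by omega), if_neg hna] at h1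
    exact h1

theorem disc_le (hu : u = 1 ∨ u = 3) (ha : a * u ^ 4 = 27 * W.c₄) (hb : b * u ^ 6 = 54 * W.c₆) :
    |((W.Δ : ℤ) : ℝ)| ≤ |((Dd a b : ℤ) : ℝ)| := by
  have hr := rel ha hb
  have h : |W.Δ| ≤ |Dd a b| := by
    rcases hu with rfl | rfl
    · norm_num at hr
      rw [hr, abs_mul]
      have := abs_nonneg W.Δ
      rw [show |(136048896 : ℤ)| = 136048896 by norm_num]
      nlinarith
    · have hr' : Dd a b = 256 * W.Δ := by norm_num at hr; omega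
      rw [hr', abs_mul]
      have := abs_nonneg W.Δ
      rw [show |(256 : ℤ)| = 256 by norm_num]
      nlinarith
  exact_mod_cast h

theorem key (h3 : S_GAIN) {σ lam C : ℝ} (hσ : 1 < σ) (hl : lam = 1 - 1 / σ) (hC : 0 < C)
    (h0 : W.Δ ≠ 0) (hco : IsCoprime W.c₄ W.Δ) (hu : u = 1 ∨ u = 3)
    (ha : a * u ^ 4 = 27 * W.c₄) (hb : b * u ^ 6 = 54 * W.c₆)
    (h31 : u = 1 → ¬ ((3 : ℤ) ∣ W.c₄ ∧ (27 : ℤ) ∣ W.c₆))
    (hS : C * (rdD W : ℝ) ^ σ ≤ |((W.Δ : ℤ) : ℝ)|) : ∃ n : ℕ, 1 ≤ n ∧ Cs n a b ∧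
      |((Dd a b : ℤ) : ℝ)| ≤ max 1 ((C⁻¹) ^ (1 / σ)) * n * Mx a b ^ (1 - lam) := by
  have hσ0 : 0 < σ := by linarith
  have hM := mn h0 hco hu ha hb h31
  obtain ⟨n, hn, hCn, hD⟩ := h3 a b hM.1
  refine ⟨n, hn, cs_of_cn hco hu ha hb hCn, ?_⟩
  have hMx : 0 < Mx a b := Mx_pos hM.1
  have e1 : 1 - lam = 1 / σ := by rw [hl]; ring
  have h2 : |((Dd a b : ℤ) : ℝ)| = n * Nc a b := by
    have h3 : |((Dd a b : ℤ) : ℝ)| = ((Dd a b).natAbs : ℝ) := by
      rw [Nat.cast_natAbs, Int.cast_abs]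
    rw [h3, hD]
    push_cast
    ring
  have hr0 : (0 : ℝ) ≤ rdD W := Nat.cast_nonneg _
  have h4 : (rdD W : ℝ) ^ σ ≤ C⁻¹ * Mx a b := by
    rw [← mul_le_mul_iff_right₀ hC, ← mul_assoc, mul_inv_cancel₀ hC.ne', one_mul]
    exact hS.trans ((disc_le hu ha hb).trans (le_max_right _ _))
  have h5 : (rdD W : ℝ) ≤ (C⁻¹) ^ (1 / σ) * Mx a b ^ (1 / σ) := by
    have h6 := Real.rpow_le_rpow (by positivity) h4 (by positivity : (0 : ℝ) ≤ 1 / σ)
    rwa [← Real.rpow_mul hr0, mul_one_div_cancel hσ0.ne', Real.rpow_one,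
      Real.mul_rpow (by positivity) hMx.le] at h6
  have h6 : (Nc a b : ℝ) ≤ rdD W := by exact_mod_cast nc_le h0 hco hu ha hb
  have hp : 0 ≤ Mx a b ^ (1 / σ) := Real.rpow_nonneg hMx.le _
  rw [h2, e1]
  calc (n : ℝ) * Nc a b ≤ n * ((C⁻¹) ^ (1 / σ) * Mx a b ^ (1 / σ)) :=
        mul_le_mul_of_nonneg_left (h6.trans h5) (Nat.cast_nonneg _)
    _ ≤ n * (max 1 ((C⁻¹) ^ (1 / σ)) * Mx a b ^ (1 / σ)) :=
        mul_le_mul_of_nonneg_left (mul_le_mul_of_nonneg_right (le_max_right _ _) hp)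
          (Nat.cast_nonneg _)
    _ = max 1 ((C⁻¹) ^ (1 / σ)) * n * Mx a b ^ (1 / σ) := by ring

theorem box (hu : u = 1 ∨ u = 3) (ha : a * u ^ 4 = 27 * W.c₄) (hb : b * u ^ 6 = 54 * W.c₆)
    {X : ℝ} (hX : 0 ≤ X) (h4 : |((W.c₄ : ℤ) : ℝ)| ≤ X ^ 2) (h6 : |((W.c₆ : ℤ) : ℝ)| ≤ X ^ 3) :
    |(a : ℝ)| ≤ (6 * X) ^ 2 ∧ |(b : ℝ)| ≤ (6 * X) ^ 3 := by
  have g4 : |a| ≤ 27 * |W.c₄| := by
    rw [show 27 * |W.c₄| = |27 * W.c₄| by rw [abs_mul]; norm_num, ← ha, abs_mul]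
    have h : 1 ≤ |u ^ 4| := by rcases hu with rfl | rfl <;> norm_num
    have := abs_nonneg a
    nlinarith
  have g6 : |b| ≤ 54 * |W.c₆| := by
    rw [show 54 * |W.c₆| = |54 * W.c₆| by rw [abs_mul]; norm_num, ← hb, abs_mul]
    have h : 1 ≤ |u ^ 6| := by rcases hu with rfl | rfl <;> norm_num
    have := abs_nonneg b
    nlinarith
  have g4' : |(a : ℝ)| ≤ 27 * |((W.c₄ : ℤ) : ℝ)| := by exact_mod_cast g4
  have g6' : |(b : ℝ)| ≤ 54 * |((W.c₆ : ℤ) : ℝ)| := by exact_mod_cast g6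
  have hX2 : 0 ≤ X ^ 2 := by positivity
  have hX3 : 0 ≤ X ^ 3 := by positivity
  constructor
  · nlinarith
  · nlinarith

end curve

theorem wm_c₄ (x : ℤ × ℤ) : (Wm x).c₄ = 1 - 48 * x.1 := by
  simp only [Wm, WeierstrassCurve.c₄, WeierstrassCurve.b₂, WeierstrassCurve.b₄]
  ring

theorem wm_c₆ (x : ℤ × ℤ) : (Wm x).c₆ = -1 + 72 * x.1 - 864 * x.2 := by
  simp only [Wm, WeierstrassCurve.c₆, WeierstrassCurve.b₂, WeierstrassCurve.b₄,
    WeierstrassCurve.b₆]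
  ring

theorem sv_fin (σ C X : ℝ) : (SV σ C X).Finite := by
  refine (box_fin X).subset ?_
  rintro _ ⟨W, -, -, rfl, h4, h6, -⟩
  exact ⟨h4, h6⟩

/-- FINS -/
theorem fins (h1 : S_UPg Cs 1) (h2 : S_LOS) (h3 : S_GAIN) : S_FINS := by
  classical
  intro σ C hσ1 hσ2 hC
  refine ⟨sv_fin σ C, ?_⟩
  have hσ0 : 0 < σ := by linarith
  obtain ⟨lam, hlam⟩ : ∃ lam : ℝ, lam = 1 - 1 / σ := ⟨_, rfl⟩
  have hl0 : 0 < lam := by
    rw [hlam, sub_pos, div_lt_one hσ0]
    exact hσ1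
  have hl1 : lam < 1 / 6 := by
    have : 5 / 6 < 1 / σ := by
      rw [lt_div_iff₀ hσ0]
      linarith
    rw [hlam]
    linarith
  have e1 : 6 / σ - 1 = 5 - 6 * lam := by
    rw [hlam]
    field_simp
    ring
  rw [e1, ← hlam]
  refine lim_gen (by positivity) (fun X => ((SV σ C X).ncard : ℝ)) ?_ ?_
  · intro ε hε
    obtain ⟨X₀, hX₀, h⟩ := h1 lam (max 1 ((C⁻¹) ^ (1 / σ))) (ε / 2) hl0 hl1 (le_max_left _ _)
      (by positivity)
    obtain ⟨X₁, hX₁⟩ := eventually_atTop.1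
      (absorb (β := 48 * lam) (e := 5 - 6 * lam) (ε := ε) (by positivity) hε)
    refine ⟨max 4 (max X₀ X₁), lt_of_lt_of_le (by norm_num) (le_max_left _ _), fun X hX => ?_⟩
    have hX4 : 4 ≤ X := (le_max_left _ _).trans hX
    have hX0 : X₀ ≤ X := (le_max_left _ _).trans ((le_max_right _ _).trans hX)
    have hX1 : X₁ ≤ X := (le_max_right _ _).trans ((le_max_right _ _).trans hX)
    refine le_trans ?_ (hX₁ X hX1)
    let S := (sv_fin σ C X).toFinset
    let p : ℤ × ℤ → Prop := fun q => (3 : ℤ) ∣ q.1 ∧ (27 : ℤ) ∣ q.2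
    have hcard : (SV σ C X).ncard = (S.filter p).card + (S.filter fun q => ¬ p q).card := by
      rw [Set.ncard_eq_toFinset_card _ (sv_fin σ C X), Finset.card_filter_add_card_filter_not]
    have hmem : ∀ q ∈ S, ∃ W : WeierstrassCurve ℤ, W.Δ ≠ 0 ∧ IsCoprime W.c₄ W.Δ ∧
        q = (W.c₄, W.c₆) ∧ |(W.c₄ : ℝ)| ≤ X ^ 2 ∧ |(W.c₆ : ℝ)| ≤ X ^ 3 ∧
        C * (rdD W : ℝ) ^ σ ≤ |(W.Δ : ℝ)| := fun q hq => by
      rw [Set.Finite.mem_toFinset] at hq
      exact hq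
    have hF1 := h (6 * X) ((S.filter p).image fun q => (q.1 / 3, 2 * (q.2 / 27))) (by linarith) (by
      intro x hx
      rw [Finset.mem_image] at hx
      obtain ⟨q, hq, rfl⟩ := hx
      rw [Finset.mem_filter] at hq
      obtain ⟨hq, hq3, hq27⟩ := hq
      obtain ⟨W, h0, hco, rfl, h4, h6, hS⟩ := hmem q hq
      simp only at hq3 hq27 ⊢
      have ha : W.c₄ / 3 * (3 : ℤ) ^ 4 = 27 * W.c₄ := by omega
      have hb : 2 * (W.c₆ / 27) * (3 : ℤ) ^ 6 = 54 * W.c₆ := by omega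
      have h31 : (3 : ℤ) = 1 → ¬ ((3 : ℤ) ∣ W.c₄ ∧ (27 : ℤ) ∣ W.c₆) := fun h => by omega
      obtain ⟨k1, k2⟩ := box (Or.inr rfl) ha hb (by linarith) h4 h6
      exact ⟨mn h0 hco (Or.inr rfl) ha hb h31, k1, k2,
        key h3 hσ1 hlam hC h0 hco (Or.inr rfl) ha hb h31 hS⟩)
    have hF2 := h (6 * X) ((S.filter fun q => ¬ p q).image fun q => (27 * q.1, 54 * q.2))
      (by linarith) (by
      intro x hx
      rw [Finset.mem_image] at hx
      obtain ⟨q, hq, rfl⟩ := hx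
      rw [Finset.mem_filter] at hq
      obtain ⟨hq, hqp⟩ := hq
      obtain ⟨W, h0, hco, rfl, h4, h6, hS⟩ := hmem q hq
      have ha : 27 * W.c₄ * (1 : ℤ) ^ 4 = 27 * W.c₄ := by omega
      have hb : 54 * W.c₆ * (1 : ℤ) ^ 6 = 54 * W.c₆ := by omega
      have h31 : (1 : ℤ) = 1 → ¬ ((3 : ℤ) ∣ W.c₄ ∧ (27 : ℤ) ∣ W.c₆) := fun _ => hqp
      obtain ⟨k1, k2⟩ := box (Or.inl rfl) ha hb (by linarith) h4 h6
      exact ⟨mn h0 hco (Or.inl rfl) ha hb h31, k1, k2,
        key h3 hσ1 hlam hC h0 hco (Or.inl rfl) ha hb h31 hS⟩)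
    rw [Finset.card_image_of_injOn] at hF1 hF2
    · rw [mul_one] at hF1 hF2
      rw [hcard]
      push_cast
      linarith
    · intro x hx y hy hxy
      simp only [Prod.mk.injEq] at hxy
      refine Prod.ext ?_ ?_ <;> omega
    · intro x hx y hy hxy
      rw [Finset.mem_coe, Finset.mem_filter] at hx hy
      obtain ⟨-, hx1, hx2⟩ := hx
      obtain ⟨-, hy1, hy2⟩ := hy
      simp only [Prod.mk.injEq] at hxy
      refine Prod.ext ?_ ?_ <;> omega
  · intro ε hε hε1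
    obtain ⟨X₀, hX₀, h⟩ := h2 lam (max 1 (C ^ (1 / σ))) ε hl0 hl1 (le_max_left _ _) hε hε1
    refine ⟨X₀, hX₀, fun X hX => ?_⟩
    obtain ⟨F, hF, hc⟩ := h X hX
    refine hc.trans ?_
    have h5 : ((F.image fun x => ((Wm x).c₄, (Wm x).c₆) : Finset (ℤ × ℤ)) : Set (ℤ × ℤ)) ⊆
        SV σ C X := by
      intro q hq
      rw [Finset.mem_coe, Finset.mem_image] at hq
      obtain ⟨x, hx, rfl⟩ := hq
      obtain ⟨h0, hco, h4, h6, hA⟩ := hF x hx
      refine ⟨Wm x, h0, hco, rfl, h4, h6, ?_⟩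
      have hD : (0 : ℝ) < |((Wm x).Δ : ℝ)| := abs_pos.2 (by exact_mod_cast h0)
      have k1 : ((max 1 (C ^ (1 / σ)) : ℝ) * (rdD (Wm x) : ℝ)) ^ σ ≤ |((Wm x).Δ : ℝ)| := by
        refine cond_lo (A := 1) (N := max 1 (C ^ (1 / σ)) * (rdD (Wm x) : ℝ)) hσ1 hlam
          (by positivity) (by rw [one_mul]) hD ?_
        rw [one_mul]
        exact hA
      refine le_trans ?_ k1
      rw [Real.mul_rpow (by positivity) (by positivity)]
      have k2 : C ≤ (max 1 (C ^ (1 / σ))) ^ σ := by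
        calc C = (C ^ (1 / σ)) ^ σ := by
              rw [← Real.rpow_mul hC.le, one_div_mul_cancel hσ0.ne', Real.rpow_one]
          _ ≤ _ := Real.rpow_le_rpow (by positivity) (le_max_right _ _) hσ0.le
      exact mul_le_mul_of_nonneg_right k2 (by positivity)
    have h6 := Set.ncard_le_ncard h5 (sv_fin σ C X)
    rw [Set.ncard_coe_finset, Finset.card_image_of_injective] at h6
    · exact_mod_cast h6
    · intro x y hxy
      simp only [wm_c₄, wm_c₆, Prod.mk.injEq] at hxy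
      refine Prod.ext ?_ ?_ <;> omega

end Pool.Agent.N265.SS
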