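import Pool.Agent.N347.LA.Fac

/-!
# Project TB (helper347), part WTS (helper265): nearly uniform weights
-/

set_option autoImplicit false

namespace Pool.Agent.N265.TBWTS

open Finset

theorem sum_a (q d : ℕ) (hd : 1 ≤ d) :
    ∑ i : Fin d, (q / d + if (i : ℕ) < q % d then 1 else 0) = q := by
  rw [sum_add_distrib, sum_const, card_univ, Fintype.card_fin, smul_eq_mul,
    Fin.sum_univ_eq_sum_range (fun i => if i < q % d then 1 else 0) d]
  have h1 : (range d).filter (fun i => i < q % d) = range (q % d) := by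
    ext i
    rw [mem_filter, mem_range, mem_range]
    have := Nat.mod_lt q (show 0 < d by omega)
    constructor
    · exact fun h => h.2
    · exact fun h => ⟨by omega, h⟩
  rw [← sum_filter, h1, sum_const, card_range, smul_eq_mul, mul_one]
  exact Nat.div_add_mod q d

theorem a_le (q d i : ℕ) (hd : 1 ≤ d) :
    (q / d + if i < q % d then 1 else 0) ≤ (q + d - 1) / d := by
  rw [Nat.le_div_iff_mul_le (by omega)]
  have h1 := Nat.div_add_mod q d
  split_ifs with h
  · have h2 : (q / d + 1) * d = d * (q / d) + d := by ring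
    omega
  · have h2 : (q / d + 0) * d = d * (q / d) := by ring
    omega

/-- Nearly uniform weights with row sums `m`. -/
theorem wts {V : Type} [Fintype V] [DecidableEq V] (H : SimpleGraph V) (d m : ℕ) (hd : 1 ≤ d)
    (hm : Even m) (hH : ∀ v, (H.neighborSet v).ncard = d) :
    ∃ x : V → V → ℕ, (∀ u v, x u v = x v u) ∧ (∀ u v, ¬ H.Adj u v → x u v = 0) ∧
      (∀ v, ∑ u, x v u = m) ∧ ∀ u v, x u v ≤ 2 * ((m + 2 * d - 1) / (2 * d)) := by
  classical
  obtain ⟨q, rfl⟩ := hm
  obtain ⟨C, hCs, -, hC1, hC2, -⟩ := Pool.Agent.N347.LA.factors (B := V) d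
    (fun u v => if H.Adj u v then 2 else 0)
    (fun u v => by simp only [H.adj_comm u v])
    (fun u => by simp)
    (fun _ _ _ => 0) (fun _ _ _ => rfl) (fun _ _ => rfl) (fun _ => 0) (fun _ => 1) (fun _ => 2)
    (fun _ _ => by simp) (fun _ => by simp)
    (fun u => by
      have h1 : H.neighborSet u = ↑(univ.filter fun v => H.Adj u v) := by
        ext v
        simp [SimpleGraph.mem_neighborSet]
      have h2 := hH u
      rw [h1, Set.ncard_coe_finset] at h2
      rw [← sum_filter, sum_const, h2, smul_eq_mul])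
    (fun _ _ => by simp)
  have hC0 : ∀ u v, ¬ H.Adj u v → ∀ i, C i u v = 0 := by
    intro u v huv i
    have h1 := hC2 u v
    rw [if_neg huv] at h1
    exact (Finset.sum_eq_zero_iff.1 h1) i (mem_univ i)
  refine ⟨fun u v => ∑ i : Fin d, (q / d + if (i : ℕ) < q % d then 1 else 0) * C i u v,
    fun u v => ?_, fun u v huv => ?_, fun v => ?_, fun u v => ?_⟩
  · exact sum_congr rfl fun i _ => by rw [hCs i u v]
  · exact sum_eq_zero fun i _ => by rw [hC0 u v huv i, mul_zero]
  · change ∑ u, ∑ i : Fin d, (q / d + if (i : ℕ) < q % d then 1 else 0) * C i v u = q + q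
    rw [sum_comm]
    have h1 : ∀ i : Fin d, ∑ u, (q / d + if (i : ℕ) < q % d then 1 else 0) * C i v u =
        (q / d + if (i : ℕ) < q % d then 1 else 0) * 2 := by
      intro i
      rw [← mul_sum, hC1 i v]
    rw [sum_congr rfl fun i _ => h1 i, ← sum_mul, sum_a q d hd]
    ring
  · change ∑ i : Fin d, (q / d + if (i : ℕ) < q % d then 1 else 0) * C i u v ≤
      2 * ((q + q + 2 * d - 1) / (2 * d))
    have h1 : ∑ i : Fin d, (q / d + if (i : ℕ) < q % d then 1 else 0) * C i u v ≤
        (q + d - 1) / d * 2 := by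
      refine (sum_le_sum fun (i : Fin d) _ =>
        Nat.mul_le_mul_right (C i u v) (a_le q d (i : ℕ) hd)).trans ?_
      rw [← mul_sum, hC2 u v]
      refine Nat.mul_le_mul_left _ ?_
      split_ifs
      · exact le_rfl
      · exact Nat.zero_le _
    have h2 : (q + d - 1) / d ≤ (q + q + 2 * d - 1) / (2 * d) := by
      rw [Nat.le_div_iff_mul_le (by omega)]
      have h3 := Nat.div_mul_le_self (q + d - 1) d
      have h4 : (q + d - 1) / d * (2 * d) = 2 * ((q + d - 1) / d * d) := by ring
      omega
    omega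

end Pool.Agent.N265.TBWTS
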